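import Pool.Agent.H706R2.FM.Defs

set_option autoImplicit false

/-! Task P7: the vertical bound, with P1, P3, P5, P6 as hypotheses. -/

namespace Pool.Agent.H706R2.FM

open MeasureTheory Real Set Filter Topology
open scoped RealInnerProductSpace ENNReal

namespace P7aux

theorem line_deriv (x t : ℝ) : HasDerivAt (fun t : ℝ => (⟨x, t⟩ : ℂ)) Complex.I t := by
  have h1 : (fun t : ℝ => (⟨x, t⟩ : ℂ)) = fun t : ℝ => (x : ℂ) + (t : ℂ) * Complex.I := by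
    funext t
    apply Complex.ext <;> simp
  rw [h1]
  have h2 : HasDerivAt (fun t : ℝ => (t : ℂ)) 1 t := Complex.ofRealCLM.hasDerivAt
  have h3 := (h2.mul_const Complex.I).const_add (x : ℂ)
  rwa [one_mul] at h3

theorem q_mem {W : Set ℂ} {q : ℂ → ℂ} (h : Inv W q) {w : ℂ} (hw : w ∈ W) :
    q w ∈ Metric.ball (0 : ℂ) 1 := by
  rw [h.W_eq] at hw
  obtain ⟨ζ, hζ, rfl⟩ := hw
  rw [h.left ζ hζ]
  exact hζ

theorem q_line {W : Set ℂ} {q : ℂ → ℂ} (h : Inv W q) {x t : ℝ} (hw : (⟨x, t⟩ : ℂ) ∈ W) :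
    HasDerivAt (fun t : ℝ => q ⟨x, t⟩) (deriv q ⟨x, t⟩ * Complex.I) t := by
  have h1 := h.dq _ hw
  have h2 := h1.comp t (line_deriv x t)
  rw [h1.deriv]
  exact h2

theorem R_line {W : Set ℂ} {q : ℂ → ℂ} (h : Inv W q) (m : ℕ) {x t : ℝ}
    (hw : (⟨x, t⟩ : ℂ) ∈ W) :
    HasDerivAt (fun t : ℝ => Rq q (2 * m) ⟨x, t⟩) (Ruq q (2 * m) ⟨x, t⟩) t := by
  have h1 := (q_line h hw).norm_sq
  have h2 := h1.pow m
  have e1 : (fun t : ℝ => Rq q (2 * m) ⟨x, t⟩) = (fun t : ℝ => ‖q ⟨x, t⟩‖ ^ 2) ^ m := by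
    funext t
    simp only [Rq, Pi.pow_apply, pow_mul]
  rw [e1]
  convert! h2 using 1
  unfold Ruq
  rw [Complex.inner]
  have e2 : ((starRingEnd ℂ) (q ⟨x, t⟩) * (deriv q ⟨x, t⟩ * Complex.I)).re =
      -((starRingEnd ℂ) (q ⟨x, t⟩) * deriv q ⟨x, t⟩).im := by
    rw [← mul_assoc, Complex.mul_I_re]
  have e2' : ((deriv q ⟨x, t⟩ * Complex.I) * (starRingEnd ℂ) (q ⟨x, t⟩)).re =
      -((starRingEnd ℂ) (q ⟨x, t⟩) * deriv q ⟨x, t⟩).im := by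
    rw [mul_comm, e2]
  first
    | rw [e2]
    | rw [e2']
  rcases m with _ | m
  · simp
  · rw [show 2 * (m + 1) - 2 = 2 * m by omega, Nat.add_sub_cancel, pow_mul]
    push_cast
    ring

theorem s_line {W : Set ℂ} {q : ℂ → ℂ} (h : Inv W q)
    (h3 : ∀ ζ ∈ Metric.ball (0:ℂ) 1, HasDerivAt sχ (2 / (1 - ζ ^ 2)) ζ) {x t : ℝ}
    (hw : (⟨x, t⟩ : ℂ) ∈ W) :
    HasDerivAt (fun t : ℝ => (sχ (q ⟨x, t⟩)).im)
      ((2 / (1 - (q ⟨x, t⟩) ^ 2)) * deriv q ⟨x, t⟩).re t := by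
  have h1 := (h3 _ (q_mem h hw)).comp t (q_line h hw)
  have h2 := Complex.imCLM.hasFDerivAt.comp_hasDerivAt t h1
  have e : Complex.imCLM (2 / (1 - (q ⟨x, t⟩) ^ 2) * (deriv q ⟨x, t⟩ * Complex.I)) =
      ((2 / (1 - (q ⟨x, t⟩) ^ 2)) * deriv q ⟨x, t⟩).re := by
    rw [Complex.imCLM_apply, ← mul_assoc, Complex.mul_I_im]
  rw [e] at h2
  exact h2

theorem q_cont {W : Set ℂ} {q : ℂ → ℂ} (h : Inv W q) : ContinuousOn q W :=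
  fun w hw => (h.dq w hw).continuousAt.continuousWithinAt

theorem dq_cont {W : Set ℂ} {q : ℂ → ℂ} (h : Inv W q)
    (hg : ∀ ζ ∈ Metric.ball (0:ℂ) 1, DifferentiableAt ℂ gχ ζ)
    (hgpos : ∀ ζ ∈ Metric.ball (0:ℂ) 1, 0 < (gχ ζ).re) : ContinuousOn (deriv q) W := by
  have h1 : ContinuousOn (fun w => (gχ (q w))⁻¹) W := by
    refine ContinuousOn.inv₀ ?_ ?_
    · have hg' : ContinuousOn gχ (Metric.ball 0 1) :=
        fun ζ hζ => (hg ζ hζ).continuousAt.continuousWithinAt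
      exact hg'.comp (q_cont h) (fun w hw => q_mem h hw)
    · intro w hw h0
      have := hgpos _ (q_mem h hw)
      rw [h0] at this
      simp at this
  exact h1.congr (fun w hw => (h.dq w hw).deriv)

theorem ρ_cont {W : Set ℂ} {q : ℂ → ℂ} (h : Inv W q)
    (hg : ∀ ζ ∈ Metric.ball (0:ℂ) 1, DifferentiableAt ℂ gχ ζ)
    (hgpos : ∀ ζ ∈ Metric.ball (0:ℂ) 1, 0 < (gχ ζ).re) (p : ℕ) :
    ContinuousOn (ρq q p) W := by
  unfold ρq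
  exact (continuousOn_const.mul ((q_cont h).norm.pow _)).mul ((dq_cont h hg hgpos).norm.pow _)

end P7aux

open P7aux

/-- the vertical bound in the upper half of `W` -/
theorem P7_upper {W : Set ℂ} {q : ℂ → ℂ} (h : Inv W q) {ε : ℝ} (hε : 0 < ε) (m : ℕ)
    (hg : ∀ ζ ∈ Metric.ball (0:ℂ) 1, DifferentiableAt ℂ gχ ζ)
    (hgpos : ∀ ζ ∈ Metric.ball (0:ℂ) 1, 0 < (gχ ζ).re)
    (h3a : ∀ ζ ∈ Metric.ball (0:ℂ) 1, 0 < ζ.im → (sχ ζ).im < π / 2)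
    (h3b : ∀ ζ ∈ Metric.ball (0:ℂ) 1, ζ.im = 0 → (sχ ζ).im = 0)
    (h3c : ∀ ζ ∈ Metric.ball (0:ℂ) 1, HasDerivAt sχ (2 / (1 - ζ ^ 2)) ζ)
    (hdom : Dom W) (him : ∀ w ∈ W, (0 < w.im → 0 < (q w).im) ∧ (w.im = 0 → (q w).im = 0))
    (h6 : ∀ w ∈ W, 0 < w.im →
      ρq q (2 * m) w ≤ (π / 2) * (2 * m : ℝ) * (1 + ε) * Ruq q (2 * m) w
        + ε * (2 * m : ℝ) * ((2 / (1 - (q w) ^ 2)) * deriv q w).re)
    {w : ℂ} (hw : w ∈ W) (hw0 : 0 < w.im) :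
    ∫ t in (0:ℝ)..w.im, ρq q (2 * m) ⟨w.re, t⟩ ≤
      (π / 2) * (2 * m : ℝ) * ((1 + ε) * Rq q (2 * m) w + ε) := by
  have hseg : ∀ t ∈ Icc (0:ℝ) w.im, (⟨w.re, t⟩ : ℂ) ∈ W := by
    intro t ht
    refine hdom.vert w hw t ?_
    rw [abs_of_nonneg ht.1, abs_of_pos hw0]
    exact ht.2
  have hlc : ContinuousOn (fun t : ℝ => (⟨w.re, t⟩ : ℂ)) (Icc 0 w.im) :=
    fun t _ => (line_deriv w.re t).continuousAt.continuousWithinAt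
  set Φ : ℝ → ℝ := fun t => (π / 2) * (2 * m : ℝ) * (1 + ε) * Rq q (2 * m) ⟨w.re, t⟩ +
    ε * (2 * m : ℝ) * (sχ (q ⟨w.re, t⟩)).im with hΦ
  set Φ' : ℝ → ℝ := fun t => (π / 2) * (2 * m : ℝ) * (1 + ε) * Ruq q (2 * m) ⟨w.re, t⟩ +
    ε * (2 * m : ℝ) * ((2 / (1 - (q ⟨w.re, t⟩) ^ 2)) * deriv q ⟨w.re, t⟩).re with hΦ'
  have hd : ∀ t ∈ Icc (0:ℝ) w.im, HasDerivAt Φ (Φ' t) t := by
    intro t ht
    exact ((R_line h m (hseg t ht)).const_mul _).add ((s_line h h3c (hseg t ht)).const_mul _)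
  have hint : IntegrableOn (fun t : ℝ => ρq q (2 * m) ⟨w.re, t⟩) (Icc 0 w.im) := by
    refine ContinuousOn.integrableOn_compact isCompact_Icc ?_
    exact (ρ_cont h hg hgpos (2 * m)).comp hlc (fun t ht => hseg t ht)
  have hmain := intervalIntegral.integral_le_sub_of_hasDeriv_right_of_le (a := 0) (b := w.im)
    (g := Φ) (g' := Φ') (φ := fun t : ℝ => ρq q (2 * m) ⟨w.re, t⟩) hw0.le
    (fun t ht => (hd t ht).continuousAt.continuousWithinAt)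
    (fun t ht => (hd t ⟨ht.1.le, ht.2.le⟩).hasDerivWithinAt) hint
    (fun t ht => h6 _ (hseg t ⟨ht.1.le, ht.2.le⟩) ht.1)
  have hw' : (⟨w.re, w.im⟩ : ℂ) = w := Complex.eta w
  have h0W : (⟨w.re, 0⟩ : ℂ) ∈ W := hseg 0 ⟨le_rfl, hw0.le⟩
  have hΦ0 : 0 ≤ Φ 0 := by
    have e1 : (sχ (q ⟨w.re, 0⟩)).im = 0 := h3b _ (q_mem h h0W) ((him _ h0W).2 rfl)
    simp only [hΦ, e1, mul_zero, add_zero]
    have : 0 ≤ Rq q (2 * m) ⟨w.re, 0⟩ := pow_nonneg (norm_nonneg _) _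
    have := Real.pi_pos
    positivity
  have hs : (sχ (q w)).im ≤ π / 2 := (h3a _ (q_mem h hw) ((him w hw).1 hw0)).le
  have hΦ1 : Φ w.im ≤ (π / 2) * (2 * m : ℝ) * ((1 + ε) * Rq q (2 * m) w + ε) := by
    simp only [hΦ, hw']
    have : ε * (2 * m : ℝ) * (sχ (q w)).im ≤ ε * (2 * m : ℝ) * (π / 2) :=
      mul_le_mul_of_nonneg_left hs (by positivity)
    linarith
  linarith

/-- P7 from P1, P3, P5, P6 for the given `W`, `q`. -/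
theorem P7_of {W : Set ℂ} {q : ℂ → ℂ} (h : Inv W q) {ε : ℝ} (hε : 0 < ε) (m : ℕ)
    (hg : ∀ ζ ∈ Metric.ball (0:ℂ) 1, DifferentiableAt ℂ gχ ζ)
    (hgpos : ∀ ζ ∈ Metric.ball (0:ℂ) 1, 0 < (gχ ζ).re)
    (h3a : ∀ ζ ∈ Metric.ball (0:ℂ) 1, 0 < ζ.im → (sχ ζ).im < π / 2)
    (h3b : ∀ ζ ∈ Metric.ball (0:ℂ) 1, ζ.im = 0 → (sχ ζ).im = 0)
    (h3c : ∀ ζ ∈ Metric.ball (0:ℂ) 1, HasDerivAt sχ (2 / (1 - ζ ^ 2)) ζ)
    (hdom : Dom W)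
    (hsym : ∀ w ∈ W, starRingEnd ℂ w ∈ W ∧ q (starRingEnd ℂ w) = starRingEnd ℂ (q w))
    (him : ∀ w ∈ W, (0 < w.im → 0 < (q w).im) ∧ (w.im = 0 → (q w).im = 0))
    (h6 : ∀ w ∈ W, 0 < w.im →
      ρq q (2 * m) w ≤ (π / 2) * (2 * m : ℝ) * (1 + ε) * Ruq q (2 * m) w
        + ε * (2 * m : ℝ) * ((2 / (1 - (q w) ^ 2)) * deriv q w).re) :
    VBound W (Rq q (2 * m)) (ρq q (2 * m)) (2 * m) ε := by
  intro w hw
  have hcast : (((2 * m : ℕ) : ℝ)) = 2 * (m : ℝ) := by push_cast; ring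
  rw [hcast]
  have hρ0 : ∀ w, 0 ≤ ρq q (2 * m) w := by
    intro w
    unfold ρq
    positivity
  rcases lt_trichotomy w.im 0 with hlt | heq | hgt
  · -- symmetry
    have hcw : starRingEnd ℂ w ∈ W := (hsym w hw).1
    have hcim : 0 < (starRingEnd ℂ w).im := by
      rw [Complex.conj_im]; linarith
    have hup := P7_upper h hε m hg hgpos h3a h3b h3c hdom him h6 hcw hcim
    rw [Complex.conj_im, Complex.conj_re] at hup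
    have hR : Rq q (2 * m) (starRingEnd ℂ w) = Rq q (2 * m) w := by
      unfold Rq
      rw [(hsym w hw).2, Complex.norm_conj]
    rw [hR] at hup
    have hseg : ∀ t : ℝ, |t| ≤ |w.im| → (⟨w.re, t⟩ : ℂ) ∈ W := hdom.vert w hw
    have hρs : ∀ t : ℝ, |t| ≤ |w.im| → ρq q (2 * m) ⟨w.re, -t⟩ = ρq q (2 * m) ⟨w.re, t⟩ := by
      intro t ht
      have hz := hseg t ht
      have hcz : starRingEnd ℂ (⟨w.re, t⟩ : ℂ) = ⟨w.re, -t⟩ := rfl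
      have hzc := (hsym _ hz).1
      rw [hcz] at hzc
      have hqc := (hsym _ hz).2
      rw [hcz] at hqc
      have hdc : deriv q (⟨w.re, -t⟩ : ℂ) = starRingEnd ℂ (deriv q ⟨w.re, t⟩) := by
        have hd1 := h.dq _ hz
        have h2 := hd1.conj_conj
        rw [hcz] at h2
        have h3 : (starRingEnd ℂ ∘ q ∘ starRingEnd ℂ) =ᶠ[𝓝 (⟨w.re, -t⟩ : ℂ)] q := by
          have hop := h.isOpen.mem_nhds hzc
          filter_upwards [hop] with z hz'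
          simp only [Function.comp_apply]
          rw [(hsym z hz').2, Complex.conj_conj]
        have h4 := h2.congr_of_eventuallyEq h3.symm
        rw [h4.deriv, hd1.deriv]
      unfold ρq
      rw [hqc, hdc, Complex.norm_conj, Complex.norm_conj]
    have hint : ∫ t in (0:ℝ)..w.im, ρq q (2 * m) ⟨w.re, t⟩ =
        -∫ t in (0:ℝ)..(-w.im), ρq q (2 * m) ⟨w.re, t⟩ := by
      have h1 := intervalIntegral.integral_comp_neg (a := 0) (b := -w.im)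
        (fun t : ℝ => ρq q (2 * m) ⟨w.re, t⟩)
      rw [neg_neg, neg_zero] at h1
      have h2 : ∫ t in (0:ℝ)..(-w.im), ρq q (2 * m) ⟨w.re, -t⟩ =
          ∫ t in (0:ℝ)..(-w.im), ρq q (2 * m) ⟨w.re, t⟩ := by
        refine intervalIntegral.integral_congr (fun t ht => ?_)
        rw [uIcc_of_le (by linarith)] at ht
        refine hρs t ?_
        rw [abs_of_nonneg ht.1, abs_of_neg hlt]
        exact ht.2
      rw [← h2, h1, intervalIntegral.integral_symm]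
    rw [hint, abs_neg, abs_of_nonneg]
    · exact hup
    · exact intervalIntegral.integral_nonneg (by linarith) (fun t _ => hρ0 _)
  · rw [heq, intervalIntegral.integral_same, abs_zero]
    have : 0 ≤ Rq q (2 * m) w := pow_nonneg (norm_nonneg _) _
    have := Real.pi_pos
    positivity
  · rw [abs_of_nonneg (intervalIntegral.integral_nonneg hgt.le (fun t _ => hρ0 _))]
    exact P7_upper h hε m hg hgpos h3a h3b h3c hdom him h6 hw hgt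

/-- P7, with the statements of P1, P3, P5, P6 as hypotheses. -/
theorem P7_vbound_of
    (hP1 : (∀ ζ ∈ Metric.ball (0:ℂ) 1, HasDerivAt fχ (gχ ζ) ζ) ∧
      (∀ ζ ∈ Metric.ball (0:ℂ) 1, DifferentiableAt ℂ gχ ζ) ∧
      (∀ ζ ∈ Metric.ball (0:ℂ) 1, ζ * gχ ζ = (4 / (π : ℂ) ^ 2) * sχ ζ) ∧
      (∀ ζ ∈ Metric.ball (0:ℂ) 1, 0 < (gχ ζ).re) ∧
      (∀ ζ ∈ Metric.ball (0:ℂ) 1, ‖fχ ζ‖ < 1) ∧
      (∀ ζ : ℂ, fχ (starRingEnd ℂ ζ) = starRingEnd ℂ (fχ ζ)) ∧ fχ 0 = 0 ∧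
      gχ 0 = 8 / (π : ℂ) ^ 2)
    (hP3 : (∀ ζ ∈ Metric.ball (0:ℂ) 1, 0 < ζ.im → 0 < (fχ ζ).im ∧ 0 < (sχ ζ).im ∧
        (sχ ζ).im < π / 2) ∧
      (∀ ζ ∈ Metric.ball (0:ℂ) 1, ζ.im = 0 → (fχ ζ).im = 0 ∧ (sχ ζ).im = 0) ∧
      (∀ ζ ∈ Metric.ball (0:ℂ) 1, ‖ζ‖ ^ 2 =
        (Real.cosh (sχ ζ).re - Real.cos (sχ ζ).im) / (Real.cosh (sχ ζ).re + Real.cos (sχ ζ).im)) ∧
      (∀ ζ ∈ Metric.ball (0:ℂ) 1, HasDerivAt sχ (2 / (1 - ζ ^ 2)) ζ) ∧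
      (∀ ζ ∈ Metric.ball (0:ℂ) 1, 2 * ζ / (1 - ζ ^ 2) = Complex.sinh (sχ ζ)))
    {W : Set ℂ} {q : ℂ → ℂ} (h : Inv W q)
    (hP5 : Dom W ∧
      (∀ w ∈ W, starRingEnd ℂ w ∈ W ∧ q (starRingEnd ℂ w) = starRingEnd ℂ (q w)) ∧
      (∀ w ∈ W, (0 < w.im → 0 < (q w).im) ∧ (w.im = 0 → (q w).im = 0)))
    (ε : ℝ) (hε : 0 < ε)
    (hP6 : ∃ p₀ : ℕ, ∀ m : ℕ, p₀ ≤ m → ∀ w ∈ W, 0 < w.im →
      ρq q (2 * m) w ≤ (π / 2) * (2 * m : ℝ) * (1 + ε) * Ruq q (2 * m) w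
        + ε * (2 * m : ℝ) * ((2 / (1 - (q w) ^ 2)) * deriv q w).re) :
    ∃ p₀ : ℕ, ∀ m : ℕ, p₀ ≤ m → VBound W (Rq q (2 * m)) (ρq q (2 * m)) (2 * m) ε := by
  obtain ⟨p₀, hp⟩ := hP6
  refine ⟨p₀, fun m hm => ?_⟩
  exact P7_of h hε m hP1.2.1 hP1.2.2.2.1 (fun ζ hζ h0 => (hP3.1 ζ hζ h0).2.2)
    (fun ζ hζ h0 => (hP3.2.1 ζ hζ h0).2) hP3.2.2.2.1 hP5.1 hP5.2.1 hP5.2.2 (hp m hm)

end Pool.Agent.H706R2.FM
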